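import Pool.Agent.TH390.Tw.SingleB

/-!
# Almost all hyperelliptic curves and their quadratic twists have no rational point above a
given set of rational numbers
-/

set_option autoImplicit false

namespace Pool.Agent.Results.MP_10e784_ag.AlmostAllTwists

open Finset Pool.Agent.TH390.Tw

/-- a rational `y` can be replaced by an integer, at the cost of dividing `k` by a square -/
theorem int_of_rat (N k : ℤ) (hk : k ≠ 0) (y : ℚ) (h : (N : ℚ) = k * y ^ 2) :
    ∃ k' c : ℤ, k' ≠ 0 ∧ |k'| ≤ |k| ∧ N = k' * c ^ 2 := by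
  obtain ⟨m, s, hms, hsf⟩ := Nat.sq_mul_squarefree k.natAbs
  have hk0 : k.natAbs ≠ 0 := Int.natAbs_ne_zero.mpr hk
  have hs0 : s ≠ 0 := by
    rintro rfl
    apply hk0
    rw [← hms]
    simp
  have hm0 : m ≠ 0 := by
    rintro rfl
    apply hk0
    rw [← hms]
    simp
  have hkk : k = k.sign * m * s ^ 2 := by
    have h1 : k.sign * (k.natAbs : ℤ) = k := Int.sign_mul_natAbs k
    rw [← hms] at h1
    push_cast at h1
    linarith
  set z : ℚ := s * y with hz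
  have hN : (N : ℚ) = (k.sign * m : ℤ) * z ^ 2 := by
    rw [h, hz]
    have h2 : ((k : ℤ) : ℚ) = ((k.sign * m * s ^ 2 : ℤ) : ℚ) := by rw [← hkk]
    rw [h2]
    push_cast
    ring
  have hzz : (z : ℚ) * z.den = z.num := Rat.mul_den_eq_num z
  have hden : (z.den : ℤ) ^ 2 ∣ (k.sign * m) * z.num ^ 2 := by
    refine ⟨N, ?_⟩
    have h3 : (((k.sign * m) * z.num ^ 2 : ℤ) : ℚ) = (((z.den : ℤ) ^ 2 * N : ℤ) : ℚ) := by
      push_cast
      rw [hN, ← hzz]
      push_cast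
      ring
    exact_mod_cast h3
  have hcop : IsCoprime ((z.den : ℤ) ^ 2) (z.num ^ 2) := by
    have h4 : IsCoprime z.num (z.den : ℤ) :=
      Int.isCoprime_iff_gcd_eq_one.mpr (by simpa [Int.gcd] using z.reduced)
    exact h4.symm.pow
  have hden2 := hcop.dvd_of_dvd_mul_right hden
  have hden3 : z.den ^ 2 ∣ m := by
    have h5 : (z.den : ℤ) ^ 2 ∣ (m : ℤ) := by
      rcases Int.sign_trichotomy k with h6 | h6 | h6
      · rwa [h6, one_mul] at hden2
      · exact absurd (Int.sign_eq_zero_iff_zero.mp h6) hk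
      · rw [h6, neg_one_mul, dvd_neg] at hden2
        exact hden2
    exact_mod_cast h5
  have hden4 : z.den = 1 := by
    have := hsf z.den (by rwa [← pow_two])
    exact Nat.isUnit_iff.mp this
  have hzint : z = z.num := by
    rw [← hzz, hden4]
    simp
  refine ⟨k.sign * m, z.num, ?_, ?_, ?_⟩
  · refine mul_ne_zero ?_ (by exact_mod_cast hm0)
    exact fun h7 => hk (Int.sign_eq_zero_iff_zero.mp h7)
  · have h8 : |k.sign| = 1 := by
      rcases Int.sign_trichotomy k with h6 | h6 | h6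
      · rw [h6]; rfl
      · exact absurd (Int.sign_eq_zero_iff_zero.mp h6) hk
      · rw [h6]; rfl
    rw [abs_mul, h8, one_mul, Int.abs_eq_natAbs k]
    have h9 : m ≤ k.natAbs := by
      rw [← hms]
      exact Nat.le_mul_of_pos_left m (by positivity)
    rw [abs_of_nonneg (by positivity)]
    exact_mod_cast h9
  · have h10 : (N : ℚ) = ((k.sign * m * z.num ^ 2 : ℤ) : ℚ) := by
      rw [hN]
      conv_lhs => rw [hzint]
      push_cast
      ring
    exact_mod_cast h10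

theorem frm_neg (j : ℕ) (f : Fin (2 * j + 1) → ℤ) (a b : ℤ) :
    frm (2 * j) f (-a) (-b) = frm (2 * j) f a b := by
  unfold frm
  refine Finset.sum_congr rfl fun i _ => ?_
  have hi : (i : ℕ) ≤ 2 * j := Nat.lt_succ_iff.mp i.2
  have h1 : ((-1 : ℤ)) ^ (i : ℕ) * (-1) ^ (2 * j - (i : ℕ)) = 1 := by
    rw [← pow_add, Nat.add_sub_cancel' hi, pow_mul]
    simp
  rw [neg_pow a, neg_pow b]
  calc f i * ((-1) ^ (i : ℕ) * a ^ (i : ℕ)) * ((-1) ^ (2 * j - (i : ℕ)) * b ^ (2 * j - (i : ℕ)))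
      = ((-1) ^ (i : ℕ) * (-1) ^ (2 * j - (i : ℕ))) * (f i * a ^ (i : ℕ) *
        b ^ (2 * j - (i : ℕ))) := by ring
    _ = _ := by rw [h1, one_mul]

theorem frm_rev (d : ℕ) (f : Fin (d + 1) → ℤ) (a b : ℤ) :
    frm d (fun i => f i.rev) b a = frm d f a b := by
  unfold frm
  rw [← Equiv.sum_comp Fin.revPerm (fun i => f i * a ^ (i : ℕ) * b ^ (d - (i : ℕ)))]
  refine Finset.sum_congr rfl fun i _ => ?_
  have hi : (i : ℕ) ≤ d := Nat.lt_succ_iff.mp i.2
  simp only [Fin.revPerm_apply, Fin.val_rev]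
  have h1 : d + 1 - ((i : ℕ) + 1) = d - (i : ℕ) := by omega
  have h2 : d - (d - (i : ℕ)) = (i : ℕ) := by omega
  rw [h1, h2]
  ring

/-- coefficient vectors with zero first coefficient, or bad with a small pair, or bad with a
pair in `P` -/
noncomputable def U (g H K : ℕ) (P : Finset (ℕ × ℤ)) : Finset (Fin (2 * (g + 1) + 1) → ℤ) := by
  classical
  exact ((box (2 * (g + 1) + 1) H).filter (fun f => f 0 = 0) ∪ Bsmall g H K) ∪ Blarge g H K P

theorem card_Z (n H : ℕ) (hH : 1 ≤ H) :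
    (((box (n + 1) H).filter (fun f => f 0 = 0)).card : ℝ) ≤ 3 ^ n * (H : ℝ) ^ n := by
  classical
  have h1 : ((box (n + 1) H).filter (fun f => f 0 = 0)).card ≤ (box n H).card := by
    refine Finset.card_le_card_of_injOn (fun f => Fin.tail f) ?_ ?_
    · intro f hf
      obtain ⟨hf1, _⟩ := Finset.mem_filter.mp (Finset.mem_coe.mp hf)
      exact Finset.mem_coe.mpr (mem_box.mpr fun i => mem_box.mp hf1 i.succ)
    · intro f hf f' hf' hff
      obtain ⟨_, hf2⟩ := Finset.mem_filter.mp (Finset.mem_coe.mp hf)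
      obtain ⟨_, hf2'⟩ := Finset.mem_filter.mp (Finset.mem_coe.mp hf')
      have hff' : Fin.tail f = Fin.tail f' := hff
      rw [← Fin.cons_self_tail f, ← Fin.cons_self_tail f', hff', hf2, hf2']
  have h2 : (box n H).card = (2 * H + 1) ^ n := by
    unfold Pool.Agent.TH390.Tw.box
    rw [Fintype.card_piFinset]
    simp only [Int.card_Icc, Finset.prod_const, Finset.card_univ, Fintype.card_fin]
    congr 1
    omega
  rw [h2] at h1
  have h3 : ((2 * H + 1 : ℕ) : ℝ) ≤ 3 * H := by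
    push_cast
    have : (1 : ℝ) ≤ H := by exact_mod_cast hH
    linarith
  calc (((box (n + 1) H).filter (fun f => f 0 = 0)).card : ℝ) ≤ (((2 * H + 1) ^ n : ℕ) : ℝ) := by
        exact_mod_cast h1
    _ = ((2 * H + 1 : ℕ) : ℝ) ^ n := by push_cast; ring
    _ ≤ (3 * (H : ℝ)) ^ n := pow_le_pow_left₀ (Nat.cast_nonneg _) h3 n
    _ = 3 ^ n * (H : ℝ) ^ n := mul_pow _ _ _

theorem mem_U (g H K : ℕ) (P : Finset (ℕ × ℤ)) (f : Fin (2 * (g + 1) + 1) → ℤ)
    (hf : f ∈ box _ H) (k a b c : ℤ)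
    (hk : k ≠ 0) (hkK : k.natAbs ≤ K) (hab : IsCoprime a b) (hba : |b| ≤ |a|)
    (haP : 2 * H < a.natAbs → (a.natAbs, a.sign * b) ∈ P)
    (h : frm (2 * (g + 1)) f a b = k * c ^ 2) : f ∈ U g H K P := by
  classical
  unfold U
  by_cases h0 : f 0 = 0
  · rw [Finset.mem_union, Finset.mem_union]
    left
    left
    exact Finset.mem_filter.mpr ⟨hf, h0⟩
  · have ha0 : a ≠ 0 := by
      rintro rfl
      rw [abs_zero] at hba
      have hb0 : b = 0 := abs_eq_zero.mp (le_antisymm hba (abs_nonneg b))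
      rw [hb0] at hab
      exact not_isCoprime_zero_zero hab
    -- normalise the sign of `a`
    have hb' : |a.sign * b| ≤ (a.natAbs : ℤ) ∧ IsCoprime (a.natAbs : ℤ) (a.sign * b) ∧
        frm (2 * (g + 1)) f (a.natAbs : ℤ) (a.sign * b) = k * c ^ 2 := by
      rcases lt_or_gt_of_ne ha0 with h1 | h1
      · have e : (a.natAbs : ℤ) = -a := Int.ofNat_natAbs_of_nonpos h1.le
        rw [e, Int.sign_eq_neg_one_of_neg h1, neg_one_mul]
        refine ⟨?_, hab.neg_neg, ?_⟩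
        · rw [abs_neg]
          rwa [abs_of_neg h1] at hba
        · rw [frm_neg (g + 1) f a b]
          exact h
      · have e : (a.natAbs : ℤ) = a := Int.natAbs_of_nonneg h1.le
        rw [e, Int.sign_eq_one_of_pos h1, one_mul]
        refine ⟨?_, hab, h⟩
        rwa [abs_of_pos h1] at hba
    obtain ⟨hb', hcop, hfr⟩ := hb'
    have hSK : f ∈ SK g H K a.natAbs (a.sign * b) := by
      unfold SK
      rw [Finset.mem_biUnion]
      refine ⟨k.natAbs, mem_Icc.mpr ⟨Int.natAbs_pos.mpr hk, hkK⟩, ?_⟩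
      rw [Finset.mem_union]
      rcases le_or_gt 0 k with h1 | h1
      · left
        unfold SS
        rw [Finset.mem_filter]
        refine ⟨hf, h0, c, ?_⟩
        rw [Int.natAbs_of_nonneg h1]
        exact hfr
      · right
        unfold SS
        rw [Finset.mem_filter]
        refine ⟨hf, h0, c, ?_⟩
        rw [Int.ofNat_natAbs_of_nonpos h1.le, neg_neg]
        exact hfr
    rcases Nat.lt_or_ge (2 * H) a.natAbs with h1 | h1
    · rw [Finset.mem_union]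
      right
      unfold Blarge
      rw [Finset.mem_biUnion]
      exact ⟨_, haP h1, hSK⟩
    · rw [Finset.mem_union, Finset.mem_union]
      left
      right
      unfold Bsmall
      rw [Finset.mem_biUnion]
      refine ⟨a.natAbs, mem_Icc.mpr ⟨Int.natAbs_pos.mpr ha0, h1⟩, ?_⟩
      rw [Finset.mem_biUnion]
      exact ⟨a.sign * b, Finset.mem_filter.mpr ⟨mem_Icc.mpr (abs_le.mp hb'), hcop⟩, hSK⟩

theorem main (g : ℕ) (hg : 2 ≤ g) (κ φ B : ℝ) (hκ0 : 0 ≤ κ) (hκ : κ < 1)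
    (hφ : φ < (2 * g + 3 - κ) / 2) :
    ∃ η C : ℝ, 0 < η ∧ ∀ H : ℕ, 1 ≤ H → ∀ A : Finset ℚ, (A.card : ℝ) ≤ (H : ℝ) ^ φ →
      (∀ x ∈ A, |(x.num : ℝ)| ≤ (H : ℝ) ^ B ∧ (x.den : ℝ) ≤ (H : ℝ) ^ B) →
      ∃ V : Finset (Fin (2 * (g + 1) + 1) → ℤ),
      (∀ f : Fin (2 * (g + 1) + 1) → ℤ, (∀ i, |f i| ≤ (H : ℤ)) →
        (∃ (k : ℤ) (y : ℚ), k ≠ 0 ∧ |(k : ℝ)| ≤ (H : ℝ) ^ κ ∧
          ((∃ x ∈ A, (k : ℚ) * y ^ 2 =
            ∑ i : Fin (2 * (g + 1) + 1), (f i : ℚ) * x ^ (i : ℕ)) ∨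
          (k : ℚ) * y ^ 2 = f (Fin.last (2 * (g + 1))))) → f ∈ V) ∧
      (V.card : ℝ) ≤ C * (H : ℝ) ^ (2 * (g : ℝ) + 3 - η) := by
  classical
  set gap : ℝ := (2 * g + 3 - κ) / 2 - φ with hgap
  have hgap0 : 0 < gap := by rw [hgap]; linarith
  obtain ⟨C1, hC1, hBs⟩ := card_Bsmall g hg
  obtain ⟨C2, hC2, hBl⟩ := card_Blarge g (max B 0) (gap / 2) (le_max_right _ _) (by linarith)
  set η : ℝ := min ((1 - κ) / 2) (gap / 2) with hη
  have hη0 : 0 < η := lt_min (by linarith) (by linarith)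
  have hη1 : η ≤ (1 - κ) / 2 := min_le_left _ _
  have hη2 : η ≤ gap / 2 := min_le_right _ _
  refine ⟨η, 2 * (3 ^ (2 * (g + 1)) + C1 + C2), hη0, ?_⟩
  intro H hH A hA hAB
  have hHR : (1 : ℝ) ≤ H := by exact_mod_cast hH
  have hHR0 : (0 : ℝ) < H := by linarith
  set K : ℕ := ⌊(H : ℝ) ^ κ⌋₊ with hK
  have hKr : (K : ℝ) ≤ (H : ℝ) ^ κ := Nat.floor_le (by positivity)
  have hKH : K ≤ H := by
    have h1 : (H : ℝ) ^ κ ≤ H := by
      calc (H : ℝ) ^ κ ≤ (H : ℝ) ^ (1 : ℝ) := Real.rpow_le_rpow_of_exponent_le hHR hκ.le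
        _ = H := Real.rpow_one _
    have h2 : (K : ℝ) ≤ H := hKr.trans h1
    exact_mod_cast h2
  -- the two sets of pairs
  set P1 : Finset (ℕ × ℤ) := ((A.filter (fun x => |(x.den : ℤ)| ≤ |x.num|)).image
    (fun x => (x.num.natAbs, x.num.sign * (x.den : ℤ)))).filter (fun p => 2 * H < p.1) with hP1
  set P2 : Finset (ℕ × ℤ) := ((A.filter (fun x => |x.num| ≤ |(x.den : ℤ)|)).image
    (fun x => (x.den, x.num))).filter (fun p => 2 * H < p.1) with hP2
  have hHB : (H : ℝ) ^ B ≤ (H : ℝ) ^ (max B 0) :=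
    Real.rpow_le_rpow_of_exponent_le hHR (le_max_left _ _)
  have hcopx : ∀ x : ℚ, IsCoprime x.num (x.den : ℤ) := fun x =>
    Int.isCoprime_iff_gcd_eq_one.mpr (by simpa [Int.gcd] using x.reduced)
  have hP1p : ∀ p ∈ P1, 2 * H < p.1 ∧ |p.2| ≤ p.1 ∧ IsCoprime (p.1 : ℤ) p.2 ∧
      (p.1 : ℝ) ≤ (H : ℝ) ^ (max B 0) := by
    intro p hp
    rw [hP1, Finset.mem_filter, Finset.mem_image] at hp
    obtain ⟨⟨x, hx, rfl⟩, hp2⟩ := hp
    obtain ⟨hxA, hxle⟩ := Finset.mem_filter.mp hx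
    have hxn : x.num ≠ 0 := by
      intro h0
      rw [h0] at hp2
      simp at hp2
    have hsg : |x.num.sign| = 1 := by
      rcases Int.sign_trichotomy x.num with h6 | h6 | h6
      · rw [h6]; rfl
      · exact absurd (Int.sign_eq_zero_iff_zero.mp h6) hxn
      · rw [h6]; rfl
    refine ⟨hp2, ?_, ?_, ?_⟩
    · show |x.num.sign * (x.den : ℤ)| ≤ (x.num.natAbs : ℤ)
      rw [abs_mul, hsg, one_mul, ← Int.abs_eq_natAbs]
      exact hxle
    · show IsCoprime (x.num.natAbs : ℤ) (x.num.sign * (x.den : ℤ))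
      have h1 := hcopx x
      rcases lt_or_gt_of_ne hxn with h2 | h2
      · rw [Int.ofNat_natAbs_of_nonpos h2.le, Int.sign_eq_neg_one_of_neg h2, neg_one_mul]
        exact h1.neg_neg
      · rw [Int.natAbs_of_nonneg h2.le, Int.sign_eq_one_of_pos h2, one_mul]
        exact h1
    · show ((x.num.natAbs : ℕ) : ℝ) ≤ _
      have h1 : ((x.num.natAbs : ℕ) : ℝ) = |(x.num : ℝ)| := by
        rw [Nat.cast_natAbs]
        push_cast
        rfl
      rw [h1]
      exact (hAB x hxA).1.trans hHB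
  have hP2p : ∀ p ∈ P2, 2 * H < p.1 ∧ |p.2| ≤ p.1 ∧ IsCoprime (p.1 : ℤ) p.2 ∧
      (p.1 : ℝ) ≤ (H : ℝ) ^ (max B 0) := by
    intro p hp
    rw [hP2, Finset.mem_filter, Finset.mem_image] at hp
    obtain ⟨⟨x, hx, rfl⟩, hp2⟩ := hp
    obtain ⟨hxA, hxle⟩ := Finset.mem_filter.mp hx
    refine ⟨hp2, ?_, (hcopx x).symm, (hAB x hxA).2.trans hHB⟩
    show |x.num| ≤ (x.den : ℤ)
    refine hxle.trans ?_
    rw [abs_of_nonneg (by positivity)]
  have hP1c : (P1.card : ℝ) ≤ (H : ℝ) ^ φ := by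
    refine le_trans ?_ hA
    exact_mod_cast (Finset.card_filter_le _ _).trans
      (Finset.card_image_le.trans (Finset.card_filter_le _ _))
  have hP2c : (P2.card : ℝ) ≤ (H : ℝ) ^ φ := by
    refine le_trans ?_ hA
    exact_mod_cast (Finset.card_filter_le _ _).trans
      (Finset.card_image_le.trans (Finset.card_filter_le _ _))
  set V : Finset (Fin (2 * (g + 1) + 1) → ℤ) :=
    U g H K P1 ∪ (U g H K P2).image (fun f i => f i.rev) with hV
  refine ⟨V, ?_, ?_⟩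
  · rintro f hfb ⟨k, y, hk, hkK, hor⟩
    have hfbox : f ∈ box (2 * (g + 1) + 1) H := mem_box.mpr hfb
    -- get a coprime pair
    obtain ⟨a, b, y', hab, hNeq, hP⟩ : ∃ (a b : ℤ) (y' : ℚ), IsCoprime a b ∧
        ((frm (2 * (g + 1)) f a b : ℤ) : ℚ) = k * y' ^ 2 ∧
        ((|b| ≤ |a| → 2 * H < a.natAbs → (a.natAbs, a.sign * b) ∈ P1) ∧
         (|a| ≤ |b| → 2 * H < b.natAbs → (b.natAbs, b.sign * a) ∈ P2)) := by
      rcases hor with ⟨x, hxA, hx⟩ | hinf
      · refine ⟨x.num, x.den, (x.den : ℚ) ^ (g + 1) * y, hcopx x, ?_, ?_, ?_⟩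
        · have hden0 : (x.den : ℚ) ≠ 0 := by exact_mod_cast x.den_ne_zero
          have hxx : (x.num : ℚ) = x * x.den := (Rat.mul_den_eq_num x).symm
          have e1 : (k : ℚ) * ((x.den : ℚ) ^ (g + 1) * y) ^ 2 =
              (x.den : ℚ) ^ (2 * (g + 1)) * (k * y ^ 2) := by
            rw [mul_pow, ← pow_mul]
            have : (g + 1) * 2 = 2 * (g + 1) := by ring
            rw [this]
            ring
          rw [e1, hx, Finset.mul_sum]
          unfold frm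
          push_cast
          refine Finset.sum_congr rfl fun i _ => ?_
          have hi : (i : ℕ) ≤ 2 * (g + 1) := Nat.lt_succ_iff.mp i.2
          rw [hxx, mul_pow]
          have e2 : (x.den : ℚ) ^ (2 * (g + 1)) =
              (x.den : ℚ) ^ (i : ℕ) * (x.den : ℚ) ^ (2 * (g + 1) - (i : ℕ)) := by
            rw [← pow_add]
            congr 1
            omega
          rw [e2]
          ring
        · intro h1 h2
          rw [hP1, Finset.mem_filter, Finset.mem_image]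
          exact ⟨⟨x, Finset.mem_filter.mpr ⟨hxA, h1⟩, rfl⟩, h2⟩
        · intro h1 h2
          rw [hP2, Finset.mem_filter, Finset.mem_image]
          refine ⟨⟨x, Finset.mem_filter.mpr ⟨hxA, h1⟩, ?_⟩, h2⟩
          have h3 : ((x.den : ℤ)).sign = 1 := Int.sign_eq_one_of_pos (by exact_mod_cast x.den_pos)
          rw [h3, one_mul, Int.natAbs_natCast]
      · refine ⟨1, 0, y, isCoprime_one_left, ?_, ?_, ?_⟩
        · rw [hinf]
          unfold frm
          rw [Fin.sum_univ_castSucc]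
          have h1 : ∑ i : Fin (2 * (g + 1)), f (Fin.castSucc i) * (1 : ℤ) ^ ((Fin.castSucc i : Fin (2 * (g + 1) + 1)) : ℕ) *
              (0 : ℤ) ^ (2 * (g + 1) - ((Fin.castSucc i : Fin (2 * (g + 1) + 1)) : ℕ)) = 0 := by
            refine Finset.sum_eq_zero fun i _ => ?_
            have hi := i.2
            have h2 : 2 * (g + 1) - ((Fin.castSucc i : Fin (2 * (g + 1) + 1)) : ℕ) ≠ 0 := by
              simp only [Fin.val_castSucc]
              omega
            rw [zero_pow h2, mul_zero]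
          rw [h1]
          simp
        · intro _ h2
          exfalso
          simp at h2
          omega
        · intro h1 _
          exfalso
          simp at h1
    obtain ⟨k', c, hk'0, hk'k, hNc⟩ := int_of_rat _ k hk y' hNeq
    have hk'K : k'.natAbs ≤ K := by
      rw [hK]
      apply Nat.le_floor
      have h1 : ((k'.natAbs : ℕ) : ℝ) = |(k' : ℝ)| := by
        rw [Nat.cast_natAbs]
        push_cast
        rfl
      rw [h1]
      refine le_trans ?_ hkK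
      exact_mod_cast hk'k
    rw [hV, Finset.mem_union]
    rcases le_total |b| |a| with h1 | h1
    · left
      exact mem_U g H K P1 f hfbox k' a b c hk'0 hk'K hab h1 (hP.1 h1) hNc
    · right
      rw [Finset.mem_image]
      refine ⟨fun i => f i.rev, ?_, ?_⟩
      · refine mem_U g H K P2 (fun i => f i.rev) (mem_box.mpr fun i => hfb _) k' b a c hk'0 hk'K
          hab.symm h1 (hP.2 h1) ?_
        rw [frm_rev]
        exact hNc
      · ext i
        simp
  have h2 : V.card ≤ (U g H K P1).card + (U g H K P2).card := by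
    rw [hV]
    refine (Finset.card_union_le _ _).trans ?_
    have := Finset.card_image_le (s := U g H K P2) (f := fun f i => f (Fin.rev i))
    omega
  -- the exponents
  have hsqH : Real.sqrt H = (H : ℝ) ^ ((1 : ℝ) / 2) := Real.sqrt_eq_rpow _
  have hsqK : Real.sqrt K ≤ (H : ℝ) ^ (κ / 2) := by
    rw [Real.sqrt_eq_rpow]
    calc (K : ℝ) ^ ((1 : ℝ) / 2) ≤ ((H : ℝ) ^ κ) ^ ((1 : ℝ) / 2) :=
          Real.rpow_le_rpow (Nat.cast_nonneg _) hKr (by norm_num)
      _ = (H : ℝ) ^ (κ / 2) := by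
          rw [← Real.rpow_mul hHR0.le]
          congr 1
          ring
  have hpow1 : (H : ℝ) ^ (2 * (g + 1)) = (H : ℝ) ^ (2 * (g : ℝ) + 2) := by
    rw [← Real.rpow_natCast]
    congr 1
    push_cast
    ring
  have hpow2 : (H : ℝ) ^ (g + 1) = (H : ℝ) ^ ((g : ℝ) + 1) := by
    rw [← Real.rpow_natCast]
    congr 1
    push_cast
    ring
  set R : ℝ := (H : ℝ) ^ (2 * (g : ℝ) + 3 - η) with hR
  have hR0 : 0 < R := by positivity
  have hX1 : (H : ℝ) ^ (2 * (g + 1)) ≤ R := by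
    rw [hpow1, hR]
    refine Real.rpow_le_rpow_of_exponent_le hHR ?_
    linarith
  have hX2 : Real.sqrt H * Real.sqrt K * (H : ℝ) ^ (2 * (g + 1)) ≤ R := by
    calc Real.sqrt H * Real.sqrt K * (H : ℝ) ^ (2 * (g + 1))
        ≤ (H : ℝ) ^ ((1 : ℝ) / 2) * (H : ℝ) ^ (κ / 2) * (H : ℝ) ^ (2 * (g : ℝ) + 2) := by
          rw [hsqH, hpow1]
          gcongr
      _ = (H : ℝ) ^ ((1 : ℝ) / 2 + κ / 2 + (2 * (g : ℝ) + 2)) := by
          rw [Real.rpow_add hHR0 ((1 : ℝ) / 2 + κ / 2) (2 * (g : ℝ) + 2),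
            Real.rpow_add hHR0 ((1 : ℝ) / 2) (κ / 2)]
      _ ≤ R := by
          rw [hR]
          refine Real.rpow_le_rpow_of_exponent_le hHR ?_
          linarith
  have hX3 : ∀ P : Finset (ℕ × ℤ), (P.card : ℝ) ≤ (H : ℝ) ^ φ →
      Real.sqrt H * Real.sqrt K * ((H : ℝ) ^ (g + 1) * (P.card * (H : ℝ) ^ (gap / 2))) ≤ R := by
    intro P hPc
    calc Real.sqrt H * Real.sqrt K * ((H : ℝ) ^ (g + 1) * (P.card * (H : ℝ) ^ (gap / 2)))
        ≤ (H : ℝ) ^ ((1 : ℝ) / 2) * (H : ℝ) ^ (κ / 2) *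
          ((H : ℝ) ^ ((g : ℝ) + 1) * ((H : ℝ) ^ φ * (H : ℝ) ^ (gap / 2))) := by
          rw [hsqH, hpow2]
          gcongr
      _ = (H : ℝ) ^ ((1 : ℝ) / 2 + κ / 2 + (((g : ℝ) + 1) + (φ + gap / 2))) := by
          rw [Real.rpow_add hHR0 ((1 : ℝ) / 2 + κ / 2) (((g : ℝ) + 1) + (φ + gap / 2)),
            Real.rpow_add hHR0 ((1 : ℝ) / 2) (κ / 2),
            Real.rpow_add hHR0 ((g : ℝ) + 1) (φ + gap / 2), Real.rpow_add hHR0 φ (gap / 2)]
      _ ≤ R := by
          rw [hR]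
          refine Real.rpow_le_rpow_of_exponent_le hHR ?_
          rw [hgap] at hη2 ⊢
          linarith
  have hU : ∀ P : Finset (ℕ × ℤ), (P.card : ℝ) ≤ (H : ℝ) ^ φ → (∀ p ∈ P, 2 * H < p.1 ∧
      |p.2| ≤ p.1 ∧ IsCoprime (p.1 : ℤ) p.2 ∧ (p.1 : ℝ) ≤ (H : ℝ) ^ (max B 0)) →
      ((U g H K P).card : ℝ) ≤ (3 ^ (2 * (g + 1)) + C1 + C2) * R := by
    intro P hPc hPp
    unfold U
    have h4 := Finset.card_union_le (((box (2 * (g + 1) + 1) H).filter (fun f => f 0 = 0)) ∪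
      Bsmall g H K) (Blarge g H K P)
    have h4' := Finset.card_union_le ((box (2 * (g + 1) + 1) H).filter (fun f => f 0 = 0))
      (Bsmall g H K)
    have h5 := card_Z (2 * (g + 1)) H hH
    have h6 := hBs H K hKH
    have h7 := hBl H K P hH hKH hPp
    have e1 : 3 ^ (2 * (g + 1)) * (H : ℝ) ^ (2 * (g + 1)) ≤ 3 ^ (2 * (g + 1)) * R :=
      mul_le_mul_of_nonneg_left hX1 (by positivity)
    have e2 : C1 * (Real.sqrt H * Real.sqrt K) * (H : ℝ) ^ (2 * (g + 1)) ≤ C1 * R := by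
      rw [mul_assoc]
      exact mul_le_mul_of_nonneg_left hX2 hC1.le
    have e3 : C2 * (Real.sqrt H * Real.sqrt K) * ((H : ℝ) ^ (g + 1) *
        (P.card * (H : ℝ) ^ (gap / 2))) ≤ C2 * R := by
      rw [mul_assoc]
      exact mul_le_mul_of_nonneg_left (hX3 P hPc) hC2.le
    calc _ ≤ (((((box (2 * (g + 1) + 1) H).filter (fun f => f 0 = 0)).card : ℕ) : ℝ) +
        ((Bsmall g H K).card : ℝ)) + ((Blarge g H K P).card : ℝ) := by
          have h8 := h4.trans (Nat.add_le_add_right h4' _)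
          exact_mod_cast h8
      _ ≤ (3 ^ (2 * (g + 1)) * R + C1 * R) + C2 * R :=
          add_le_add (add_le_add (h5.trans e1) (h6.trans e2)) (h7.trans e3)
      _ = _ := by ring
  have h8 : (V.card : ℝ) ≤ ((U g H K P1).card : ℝ) + ((U g H K P2).card : ℝ) := by
    exact_mod_cast h2
  calc (V.card : ℝ) ≤ ((U g H K P1).card : ℝ) + ((U g H K P2).card : ℝ) := h8
    _ ≤ (3 ^ (2 * (g + 1)) + C1 + C2) * R + (3 ^ (2 * (g + 1)) + C1 + C2) * R :=
        add_le_add (hU P1 hP1c hP1p) (hU P2 hP2c hP2p)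
    _ = _ := by ring

/-- **Almost all hyperelliptic curves of genus `g`, together with all their quadratic twists by
`|k| ≤ H ^ κ`, have no rational point at infinity or above a given set of at most `H ^ φ` rational
numbers of polynomial height.** -/
theorem result (g : ℕ) (hg : 2 ≤ g) (κ φ B : ℝ) (hκ0 : 0 ≤ κ) (hκ : κ < 1)
    (hφ : φ < (2 * g + 3 - κ) / 2) :
    ∃ η C : ℝ, 0 < η ∧ ∀ H : ℕ, 1 ≤ H → ∀ A : Finset ℚ, (A.card : ℝ) ≤ (H : ℝ) ^ φ →
      (∀ x ∈ A, |(x.num : ℝ)| ≤ (H : ℝ) ^ B ∧ (x.den : ℝ) ≤ (H : ℝ) ^ B) →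
      {f : Polynomial ℤ | f.natDegree ≤ 2 * g + 2 ∧ (∀ i, |f.coeff i| ≤ (H : ℤ)) ∧
        ∃ (k : ℤ) (y : ℚ), k ≠ 0 ∧ |(k : ℝ)| ≤ (H : ℝ) ^ κ ∧
          ((∃ x ∈ A, (k : ℚ) * y ^ 2 = Polynomial.aeval x f) ∨
            (k : ℚ) * y ^ 2 = f.coeff (2 * g + 2))}.Finite ∧
      ({f : Polynomial ℤ | f.natDegree ≤ 2 * g + 2 ∧ (∀ i, |f.coeff i| ≤ (H : ℤ)) ∧
        ∃ (k : ℤ) (y : ℚ), k ≠ 0 ∧ |(k : ℝ)| ≤ (H : ℝ) ^ κ ∧
          ((∃ x ∈ A, (k : ℚ) * y ^ 2 = Polynomial.aeval x f) ∨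
            (k : ℚ) * y ^ 2 = f.coeff (2 * g + 2))}.ncard : ℝ) ≤
        C * (H : ℝ) ^ (2 * (g : ℝ) + 3 - η) := by
  classical
  obtain ⟨η, C, hη, h⟩ := main g hg κ φ B hκ0 hκ hφ
  refine ⟨η, C, hη, fun H hH A hA hAB => ?_⟩
  obtain ⟨V, hV, hVc⟩ := h H hH A hA hAB
  set S : Set (Polynomial ℤ) := {f : Polynomial ℤ | f.natDegree ≤ 2 * g + 2 ∧
      (∀ i, |f.coeff i| ≤ (H : ℤ)) ∧
        ∃ (k : ℤ) (y : ℚ), k ≠ 0 ∧ |(k : ℝ)| ≤ (H : ℝ) ^ κ ∧
          ((∃ x ∈ A, (k : ℚ) * y ^ 2 = Polynomial.aeval x f) ∨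
            (k : ℚ) * y ^ 2 = f.coeff (2 * g + 2))} with hS
  set vec : Polynomial ℤ → (Fin (2 * (g + 1) + 1) → ℤ) := fun f i => f.coeff i with hvec
  have hmaps : ∀ f ∈ S, vec f ∈ (V : Set (Fin (2 * (g + 1) + 1) → ℤ)) := by
    rintro f ⟨hd, hb, k, y, hk, hkK, hor⟩
    refine Finset.mem_coe.mpr (hV (vec f) (fun i => hb _) ⟨k, y, hk, hkK, ?_⟩)
    rcases hor with ⟨x, hxA, hx⟩ | hinf
    · left
      refine ⟨x, hxA, ?_⟩
      rw [hx, Polynomial.aeval_eq_sum_range' (lt_of_le_of_lt hd (by omega :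
        2 * g + 2 < 2 * (g + 1) + 1))]
      rw [← Fin.sum_univ_eq_sum_range (fun i => f.coeff i • x ^ i) (2 * (g + 1) + 1)]
      refine Finset.sum_congr rfl fun i _ => ?_
      simp [hvec, zsmul_eq_mul]
    · right
      rw [hinf]
      simp only [hvec, Fin.val_last]
      have : 2 * (g + 1) = 2 * g + 2 := by ring
      rw [this]
  have hinj : Set.InjOn vec S := by
    rintro f ⟨hd, _⟩ f' ⟨hd', _⟩ hff
    ext n
    by_cases hn : n < 2 * (g + 1) + 1
    · exact congrFun hff ⟨n, hn⟩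
    · rw [Polynomial.coeff_eq_zero_of_natDegree_lt (by omega),
        Polynomial.coeff_eq_zero_of_natDegree_lt (by omega)]
  have hfin : S.Finite := Set.Finite.of_finite_image
    (V.finite_toSet.subset (Set.image_subset_iff.mpr hmaps)) hinj
  refine ⟨hfin, ?_⟩
  have h1 : S.ncard ≤ V.card := by
    rw [← Set.ncard_coe_finset, ← hinj.ncard_image]
    exact Set.ncard_le_ncard (Set.image_subset_iff.mpr hmaps) V.finite_toSet
  have h2 : (S.ncard : ℝ) ≤ V.card := by exact_mod_cast h1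
  exact h2.trans hVc

end Pool.Agent.Results.MP_10e784_ag.AlmostAllTwists
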