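import Pool.Agent.TH390.Tw.S1

/-!
# Almost all curves with prescribed rational points have no other rational points of small height

Plane curves `L + P G = 0`, `G` running through all forms of degree `q ≥ 4`: they all pass through
the points of `L = P = 0` (at most `m (m + q)` points if `P` and `L` are coprime; all of them may be
rational), and for almost all `G` with coefficients in `[-H, H]` they have no other rational points of
height at most `H ^ θ`, `θ < (q + 1) / 3`.  Cyclic covers `k y ^ e = L + P G` of the line: they have a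
rational point over each rational root `α` of `P` for which `L α / k` is an `e`-th power, and again
almost all of them have no rational points of small height which do not lie over a root of `P`.
-/

set_option autoImplicit false

namespace Pool.Agent.Results.MP_10e784_ag.PrescribedCurves

open Finset Pool.Agent.TH390.Tw

/-- `x` has coprime coordinates: it represents a point of the projective space over `ℚ` -/
def Primitive {n : ℕ} (x : Fin (n + 1) → ℤ) : Prop := ∀ p : ℕ, p.Prime → ∃ j, ¬ (p : ℤ) ∣ x j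

/-- the ternary forms `G` of degree `q` with coefficients in `[-H, H]` for which the plane curve
`L + P G = 0` has a rational point in `A` which is not on the curve `P = 0` -/
def PlaneExceptional (q : ℕ) (P L : MvPolynomial (Fin 3) ℤ) (H : ℕ) (A : Set (Fin 3 → ℤ)) :
    Set (MvPolynomial (Fin 3) ℤ) :=
  {G | G.IsHomogeneous q ∧ (∀ m, |G.coeff m| ≤ (H : ℤ)) ∧
    ∃ x ∈ A, Primitive (n := 2) x ∧ MvPolynomial.eval x P ≠ 0 ∧
      MvPolynomial.eval x (L + P * G) = 0}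

/-- the binary forms `G` of degree `q` with coefficients in `[-H, H]` for which, for some exponent
`e' ≥ e` and some nonzero integer `k`, `|k| ≤ H ^ κ`, the curve `k y ^ e' = L + P G` has a rational
point over a point in `A` which is not a root of `P` -/
def CyclicExceptional (q e : ℕ) (P L : MvPolynomial (Fin 2) ℤ) (κ : ℝ) (H : ℕ)
    (A : Set (Fin 2 → ℤ)) : Set (MvPolynomial (Fin 2) ℤ) :=
  {G | G.IsHomogeneous q ∧ (∀ m, |G.coeff m| ≤ (H : ℤ)) ∧
    ∃ x ∈ A, Primitive (n := 1) x ∧ MvPolynomial.eval x P ≠ 0 ∧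
      ∃ (k : ℤ) (e' : ℕ) (y : ℚ), k ≠ 0 ∧ |(k : ℝ)| ≤ (H : ℝ) ^ κ ∧ e ≤ e' ∧
        (k : ℚ) * y ^ e' = ((MvPolynomial.eval x (L + P * G) : ℤ) : ℚ)}

theorem exists_int (k N : ℤ) (e : ℕ) (hk : k ≠ 0) (y : ℚ) (h : (k : ℚ) * y ^ e = (N : ℚ)) :
    ∃ k' c : ℤ, k' ≠ 0 ∧ k'.natAbs ≤ k.natAbs ∧ k' * c ^ e = N := by
  have hd : (y.den : ℚ) ≠ 0 := by exact_mod_cast y.den_ne_zero
  have h1 : k * y.num ^ e = N * (y.den : ℤ) ^ e := by
    have h2 : (k : ℚ) * (y.num : ℚ) ^ e = N * (y.den : ℚ) ^ e := by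
      rw [← h]
      have h3 : (y.num : ℚ) = y * y.den := (Rat.mul_den_eq_num y).symm
      rw [h3, mul_pow]
      ring
    exact_mod_cast h2
  have hcop : IsCoprime ((y.den : ℤ) ^ e) (y.num ^ e) := by
    have h4 : IsCoprime (y.num) (y.den : ℤ) := by
      rw [Int.isCoprime_iff_gcd_eq_one]
      exact y.reduced
    exact h4.symm.pow
  have h5 : (y.den : ℤ) ^ e ∣ k := by
    refine hcop.dvd_of_dvd_mul_right ?_
    rw [h1]
    exact dvd_mul_left _ _
  obtain ⟨k', hk'⟩ := h5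
  have hd2 : ((y.den : ℤ) ^ e) ≠ 0 := by
    have : (y.den : ℤ) ≠ 0 := by exact_mod_cast y.den_ne_zero
    exact pow_ne_zero e this
  have hk'0 : k' ≠ 0 := by
    rintro rfl
    rw [mul_zero] at hk'
    exact hk hk'
  refine ⟨k', y.num, hk'0, ?_, ?_⟩
  · rw [hk', Int.natAbs_mul]
    exact Nat.le_mul_of_pos_left _ (Int.natAbs_pos.mpr hd2)
  · have h6 : (y.den : ℤ) ^ e * (k' * y.num ^ e) = (y.den : ℤ) ^ e * N := by
      rw [hk'] at h1
      linarith
    exact mul_left_cancel₀ hd2 h6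

/-- plane curves -/
theorem plane_bound (m q : ℕ) (hq : 4 ≤ q) (P L : MvPolynomial (Fin 3) ℤ)
    (hP : P.IsHomogeneous m) (hL : L.IsHomogeneous (m + q)) (θ φ : ℝ) (hθ : 1 ≤ θ)
    (hφ : φ < q + 1) :
    ∃ η C : ℝ, 0 < η ∧ ∀ H : ℕ, 1 ≤ H → ∀ A : Finset (Fin 3 → ℤ),
      (A.card : ℝ) ≤ 27 * (H : ℝ) ^ φ → (∀ x ∈ A, ∀ j, |(x j : ℝ)| ≤ (H : ℝ) ^ θ) →
      (PlaneExceptional q P L H A).Finite ∧ ((PlaneExceptional q P L H A).ncard : ℝ) ≤
        C * (H : ℝ) ^ (((q + 2).choose 2 : ℝ) - η) := by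
  classical
  have hqR : (4 : ℝ) ≤ q := by exact_mod_cast hq
  have hmR : (0 : ℝ) ≤ m := Nat.cast_nonneg m
  have hδ : 0 < (q : ℝ) + 1 - φ := by linarith
  obtain ⟨e₁, he₁⟩ := exists_nat_ge ((1 + θ * (m + q)) / ((q : ℝ) + 1 - φ))
  obtain ⟨e₂, he₂⟩ := exists_nat_ge ((m : ℝ) + q)
  set e : ℕ := e₁ + e₂ + 2 with he
  have heR : (e : ℝ) = e₁ + e₂ + 2 := by
    rw [he]
    push_cast
    ring
  have h0₁ : (0 : ℝ) ≤ e₁ := Nat.cast_nonneg _
  have h0₂ : (0 : ℝ) ≤ e₂ := Nat.cast_nonneg _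
  have hepos : (0 : ℝ) < e := by linarith
  have k2 : ((m : ℝ) + q) / e < 1 := by
    rw [div_lt_one hepos]
    linarith
  have k3 : (1 + θ * ((m : ℝ) + q)) / e < (q : ℝ) + 1 - φ := by
    rw [div_lt_iff₀ hepos]
    rw [div_le_iff₀ hδ] at he₁
    have : (e₁ : ℝ) * ((q : ℝ) + 1 - φ) < e * ((q : ℝ) + 1 - φ) :=
      mul_lt_mul_of_pos_right (by linarith) hδ
    linarith
  have k1 : 1 / (e : ℝ) < 1 := by
    rw [div_lt_one hepos]
    linarith
  obtain ⟨η, C, hη, hmain⟩ := mainSub 2 m q e (by omega) P L hP hL 0 θ φ (le_refl 0) hθ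
    (by
      have : (1 - 1 / (e : ℝ)) * (m + q) = m + q - (m + q) / e := by ring
      rw [this]
      push_cast
      linarith)
    (by linarith) (by linarith)
  refine ⟨η, C, hη, fun H hH A hA hAB => ?_⟩
  obtain ⟨V, hV, hVc⟩ := hmain H hH A (by norm_num; exact hA) hAB
  have hmaps : ∀ G ∈ PlaneExceptional q P L H A,
      vec (n := 2) q G ∈ (V : Set (Idx 2 q → ℤ)) := by
    rintro G ⟨hG, hGb, x, hxA, hxp, hx0, hxy⟩
    have hev : MvPolynomial.eval x L + MvPolynomial.eval x P * ev x (vec (n := 2) q G) = 0 := by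
      rw [ev_vec G hG, ← map_mul, ← map_add]
      exact hxy
    refine Finset.mem_coe.mpr (hV (vec (n := 2) q G) (mem_vbox.mpr fun i => hGb _) x hxA hxp hx0 1
      (le_refl 1) ?_ ?_)
    · rw [Real.rpow_zero, Nat.cast_one]
    · intro p _ _ _
      rw [hev]
      exact dvd_zero _
  have hinj : Set.InjOn (vec (n := 2) q) (PlaneExceptional q P L H A) := by
    rintro G ⟨hG, _⟩ G' ⟨hG', _⟩ hGG
    exact vec_inj hG hG' hGG
  refine ⟨Set.Finite.of_injOn hmaps hinj V.finite_toSet, ?_⟩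
  have h4 := Set.ncard_le_ncard_of_injOn (vec (n := 2) q) hmaps hinj V.finite_toSet
  rw [Set.ncard_coe_finset] at h4
  have h5 : ((PlaneExceptional q P L H A).ncard : ℝ) ≤ V.card := by exact_mod_cast h4
  refine (h5.trans hVc).trans (le_of_eq ?_)
  rw [add_comm 2 q]

/-- cyclic covers of the line -/
theorem cyclic_bound (m q e : ℕ) (he : 1 ≤ e) (P L : MvPolynomial (Fin 2) ℤ)
    (hP : P.IsHomogeneous m) (hL : L.IsHomogeneous (m + q)) (κ θ φ : ℝ) (hκ0 : 0 ≤ κ)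
    (hθ : 1 ≤ θ) (h1 : (m : ℝ) + 2 < (1 - 1 / e) * (m + q)) (h2 : κ < 1 - 1 / e)
    (h3 : φ + κ + (1 + θ * (m + q)) / e < q + 1) :
    ∃ η C : ℝ, 0 < η ∧ ∀ H : ℕ, 1 ≤ H → ∀ A : Finset (Fin 2 → ℤ),
      (A.card : ℝ) ≤ 9 * (H : ℝ) ^ φ → (∀ x ∈ A, ∀ j, |(x j : ℝ)| ≤ (H : ℝ) ^ θ) →
      (CyclicExceptional q e P L κ H A).Finite ∧
        ((CyclicExceptional q e P L κ H A).ncard : ℝ) ≤ C * (H : ℝ) ^ ((q : ℝ) + 1 - η) := by
  classical
  obtain ⟨η, C, hη, hmain⟩ := mainSub 1 m q e he P L hP hL κ θ φ hκ0 hθ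
    (by push_cast; linarith) h2 h3
  refine ⟨η, C, hη, fun H hH A hA hAB => ?_⟩
  obtain ⟨V, hV, hVc⟩ := hmain H hH A (by norm_num; exact hA) hAB
  have hmaps : ∀ G ∈ CyclicExceptional q e P L κ H A,
      vec (n := 1) q G ∈ (V : Set (Idx 1 q → ℤ)) := by
    rintro G ⟨hG, hGb, x, hxA, hxp, hx0, k, e', y, hk, hkH, hee, hxy⟩
    obtain ⟨k', c, hk', hkk, hkc⟩ := exists_int k _ e' hk y hxy
    have hev : MvPolynomial.eval x L + MvPolynomial.eval x P * ev x (vec (n := 1) q G) =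
        k' * c ^ e' := by
      rw [ev_vec G hG, ← map_mul, ← map_add]
      exact hkc.symm
    refine Finset.mem_coe.mpr (hV (vec (n := 1) q G) (mem_vbox.mpr fun i => hGb _) x hxA hxp hx0
      k'.natAbs (Int.natAbs_pos.mpr hk') ?_ ?_)
    · have h4 : (k'.natAbs : ℝ) ≤ (k.natAbs : ℝ) := by exact_mod_cast hkk
      refine h4.trans ?_
      rw [Nat.cast_natAbs]
      push_cast
      exact hkH
    · intro p hp hps hdvd
      rw [hev] at hdvd ⊢
      have hpZ : Prime (p : ℤ) := Nat.prime_iff_prime_int.mp hp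
      have hpk : ¬ (p : ℤ) ∣ k' := fun h => hps (Int.natCast_dvd.mp h)
      have hpc : (p : ℤ) ∣ c := hpZ.dvd_of_dvd_pow ((hpZ.dvd_or_dvd hdvd).resolve_left hpk)
      exact ((pow_dvd_pow _ hee).trans (pow_dvd_pow_of_dvd hpc e')).mul_left _
  have hinj : Set.InjOn (vec (n := 1) q) (CyclicExceptional q e P L κ H A) := by
    rintro G ⟨hG, _⟩ G' ⟨hG', _⟩ hGG
    exact vec_inj hG hG' hGG
  refine ⟨Set.Finite.of_injOn hmaps hinj V.finite_toSet, ?_⟩
  have h4 := Set.ncard_le_ncard_of_injOn (vec (n := 1) q) hmaps hinj V.finite_toSet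
  rw [Set.ncard_coe_finset] at h4
  have h5 : ((CyclicExceptional q e P L κ H A).ncard : ℝ) ≤ V.card := by exact_mod_cast h4
  refine (h5.trans hVc).trans (le_of_eq ?_)
  have h6 : ((((1 + q).choose 1 : ℕ) : ℝ)) = (q : ℝ) + 1 := by
    rw [Nat.choose_one_right]
    push_cast
    ring
  rw [h6]

/-- **Almost all plane curves through the points `L = P = 0`, and almost all cyclic covers of the
line with prescribed points, have no other rational points of small height.** -/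
theorem result :
    (∀ (m q : ℕ) (P L : MvPolynomial (Fin 3) ℤ), 4 ≤ q → P.IsHomogeneous m →
      L.IsHomogeneous (m + q) → ∀ θ φ : ℝ, 1 ≤ θ → φ < q + 1 →
      ∃ η C : ℝ, 0 < η ∧ ∀ H : ℕ, 1 ≤ H → ∀ A : Finset (Fin 3 → ℤ),
        (A.card : ℝ) ≤ 27 * (H : ℝ) ^ φ → (∀ x ∈ A, ∀ j, |(x j : ℝ)| ≤ (H : ℝ) ^ θ) →
        (PlaneExceptional q P L H A).Finite ∧ ((PlaneExceptional q P L H A).ncard : ℝ) ≤
          C * (H : ℝ) ^ (((q + 2).choose 2 : ℝ) - η)) ∧
    ∀ (m q e : ℕ) (P L : MvPolynomial (Fin 2) ℤ), 1 ≤ e → P.IsHomogeneous m →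
      L.IsHomogeneous (m + q) → ∀ κ θ φ : ℝ, 0 ≤ κ → 1 ≤ θ →
      (m : ℝ) + 2 < (1 - 1 / e) * (m + q) → κ < 1 - 1 / e →
      φ + κ + (1 + θ * (m + q)) / e < q + 1 →
      ∃ η C : ℝ, 0 < η ∧ ∀ H : ℕ, 1 ≤ H → ∀ A : Finset (Fin 2 → ℤ),
        (A.card : ℝ) ≤ 9 * (H : ℝ) ^ φ → (∀ x ∈ A, ∀ j, |(x j : ℝ)| ≤ (H : ℝ) ^ θ) →
        (CyclicExceptional q e P L κ H A).Finite ∧
          ((CyclicExceptional q e P L κ H A).ncard : ℝ) ≤ C * (H : ℝ) ^ ((q : ℝ) + 1 - η) :=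
  ⟨fun m q P L hq hP hL θ φ hθ hφ => plane_bound m q hq P L hP hL θ φ hθ hφ,
    fun m q e P L he hP hL κ θ φ hκ0 hθ h1 h2 h3 =>
      cyclic_bound m q e he P L hP hL κ θ φ hκ0 hθ h1 h2 h3⟩

end Pool.Agent.Results.MP_10e784_ag.PrescribedCurves
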