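import Mathlib
import Pool.Agent.TH213.SP.Fam

/-!
# Curves of every genus `g ≥ 3`, almost all of whose twists have exactly `2 g + 2` rational points

Let `A` be a finite set of `2 g + 1 ≥ 7` integers which is generic (`GenSet`) and has many four term
arithmetic progressions (`FermatSet`).  For all squarefree `d`, `|d| ≤ X`, with at most
`C X (log X)^(-1/5)` exceptions, the curve `d y² = ∏ a ∈ A, (x - a)` of genus `g` has exactly
`2 g + 2` rational points: the `2 g + 1` affine points with `y = 0` and the point at infinity.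
Such curves exist in every genus: `y² = x (x² - 1) (x² - 9) ⋯ (x² - 9 ^ (g - 1))`, and
`y² = x (x - 1) (x - 2) ⋯ (x - 2 g)` for `g ≥ 4`.
-/

set_option autoImplicit false

namespace Pool.Agent.Results.MP_10e784_ag.TwistsWithTrivialPoints

open Finset

/-- the set `A ∪ {∞}` is generic: for `a ∈ A` the differences `a - l`, `l ≠ a`, are not all in the
same square class, and for `a ≠ b` in `A` some product `(a - l) * (b - l)` is not a square -/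
def GenSet (A : Finset ℤ) : Prop :=
  (∀ a ∈ A, ∃ l ∈ A, ∃ l' ∈ A, l ≠ a ∧ l' ≠ a ∧ ¬ IsSquare ((a - l) * (a - l'))) ∧
  ∀ a ∈ A, ∀ b ∈ A, a ≠ b → ∃ l ∈ A, l ≠ a ∧ l ≠ b ∧ ¬ IsSquare ((a - l) * (b - l))

/-- `A` contains a nonconstant four term arithmetic progression, and so does
`{0} ∪ {1 / (b - a) | b ∈ A, b ≠ a}` for every `a ∈ A` -/
def FermatSet (A : Finset ℤ) : Prop :=
  (∃ s t : ℚ, t ≠ 0 ∧ ∀ j ∈ range 4, ∃ b ∈ A, s + j * t = b) ∧
  ∀ a ∈ A, ∃ s t : ℚ, t ≠ 0 ∧ ∀ j ∈ range 4,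
    s + j * t = 0 ∨ ∃ b ∈ A, b ≠ a ∧ s + j * t = 1 / (b - a)

theorem result :
    (∀ A : Finset ℤ, Odd A.card → 7 ≤ A.card → GenSet A → FermatSet A →
      ∃ C : ℝ, ∀ X : ℕ, 3 ≤ X →
        ({d : ℤ | d.natAbs ≤ X ∧ Squarefree d ∧
          {p : ℚ × ℚ | (d : ℚ) * p.2 ^ 2 = ∏ a ∈ A, (p.1 - a)}.ncard ≠ A.card}.ncard : ℝ) ≤
          C * X * (Real.log X) ^ (-(1 / 5 : ℝ))) ∧
    (∀ g : ℕ, 3 ≤ g → ∃ C : ℝ, ∀ X : ℕ, 3 ≤ X →
      ({d : ℤ | d.natAbs ≤ X ∧ Squarefree d ∧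
        {p : ℚ × ℚ | (d : ℚ) * p.2 ^ 2 = p.1 * ∏ j ∈ range g, (p.1 ^ 2 - 9 ^ j)}.ncard ≠
          2 * g + 1}.ncard : ℝ) ≤ C * X * (Real.log X) ^ (-(1 / 5 : ℝ))) ∧
    (∀ g : ℕ, 4 ≤ g → ∃ C : ℝ, ∀ X : ℕ, 3 ≤ X →
      ({d : ℤ | d.natAbs ≤ X ∧ Squarefree d ∧
        {p : ℚ × ℚ | (d : ℚ) * p.2 ^ 2 = ∏ j ∈ range (2 * g + 1), (p.1 - j)}.ncard ≠
          2 * g + 1}.ncard : ℝ) ≤ C * X * (Real.log X) ^ (-(1 / 5 : ℝ))) := by
  refine ⟨fun A hodd h7 hG hF => ?_, fun g hg => ?_, fun g hg => ?_⟩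
  · exact Pool.Agent.TH213.SP.crit hodd (by omega) hG hF
  · have h := Pool.Agent.TH213.SP.crit (A := Pool.Agent.TH213.SP.T g)
      (by rw [Pool.Agent.TH213.SP.card_T]; exact ⟨g, rfl⟩)
      (by rw [Pool.Agent.TH213.SP.card_T]; omega)
      (Pool.Agent.TH213.SP.gen_T (by omega)) (Pool.Agent.TH213.SP.fermat_T (by omega))
    simp only [Pool.Agent.TH213.SP.prod_T, Pool.Agent.TH213.SP.card_T] at h
    exact h
  · have h := Pool.Agent.TH213.SP.crit (A := Pool.Agent.TH213.SP.U (2 * g))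
      (by rw [Pool.Agent.TH213.SP.card_U]; exact ⟨g, rfl⟩)
      (by rw [Pool.Agent.TH213.SP.card_U]; omega)
      (Pool.Agent.TH213.SP.gen_U (by omega)) (Pool.Agent.TH213.SP.fermat_U (by omega))
    simp only [Pool.Agent.TH213.SP.prod_U, Pool.Agent.TH213.SP.card_U] at h
    exact h

end Pool.Agent.Results.MP_10e784_ag.TwistsWithTrivialPoints
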