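import Mathlib
import Pool.Agent.TH717.GO.UE

set_option autoImplicit false

/-!
# Uniformity for rational points in orbits of linear groups

Put `bd r D = ∏_{f = 1}^{D} |GL_r(𝔽_{2^f})| |GL_r(𝔽_{3^f})|`, so `bd r 1 = |GL_r(𝔽₂)| |GL_r(𝔽₃)|`.

(1) Let `X` be a closed subset of a projective space over a field `k` of characteristic zero which
contains no rational curve over the algebraic closure of `k`, for example a curve of geometric genus
at least `1` over `ℚ`.  Let `K ⊇ k` be a number field of degree at most `D` over `ℚ`, or any field
all of whose finitely generated subrings have homomorphisms to number fields of degree at most `D`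
(by (2) and (3): a field of rational functions over such a field).  For EVERY group `H`, every
representation `ρ : H → GL_r(K)`, every matrix `M` and every vector `v` over `K` such that all the
points with homogeneous coordinates `M ρ(h) v`, `h ∈ H`, lie on `X`, the number of these points is
at most `bd r D`.  This bound does not depend on `X`, its dimension, its genus or its equations, on
the dimension of the projective space, on `k`, `K` (except for `D`), on the group, on the
representation or on the orbit; the group need not be finitely generated.

(4) Conversely let `k` be a number field and suppose that `X` contains a rational curve over the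
algebraic closure of `k`.  Then over some number field `K ⊇ k` there is such an orbit, even of the
infinite cyclic group, with infinitely many points.

Method: the elements whose eigenvalues generate a torsion-free group generate a normal subgroup `N`
of `H`.  The orbit of `N` of any point is one point, since exponential polynomials with
torsion-free roots behave like polynomials in algebraically independent variables and `X` has no
rational curves.  If `H` is finitely generated, then the index of `N` divides the order of `GL_r`
over residue fields of degree at most `D` of almost all characteristics, hence `bd r D` by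
Dirichlet's theorem on primes in arithmetic progressions, as in Minkowski's theorem on finite
groups of matrices.
-/

namespace Pool.Agent.Results.MP_10e784_ag.UniformLinearOrbits

open MvPolynomial Pool.Agent.TH717.GO

theorem result :
    (∀ (k : Type) [Field k] [CharZero k] (n : ℕ) (FF : Set (MvPolynomial (Fin (n + 1)) k)),
      (∀ F ∈ FF, ∃ e, F.IsHomogeneous e) → NoRatBar FF →
      ∀ (K : Type) [Field K] [Algebra k K] (D : ℕ), SpecDeg K D →
      ∀ (r : ℕ) (H : Type) [Group H] (ρ : H →* Matrix.GeneralLinearGroup (Fin r) K)
        (M : Matrix (Fin (n + 1)) (Fin r) K) (v : Fin r → K),
        (∀ h, ∀ F ∈ FF, aeval (orb M ρ v h) F = 0) →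
        (orbitPts M ρ v).encard ≤ bd r D) ∧
    (∀ (K : Type) [Field K] [NumberField K] (D : ℕ), Module.finrank ℚ K ≤ D → SpecDeg K D) ∧
    (∀ (K : Type) [Field K] [CharZero K] (D : ℕ), SpecDeg K D → SpecDeg (RatFunc K) D) ∧
    (∀ (k : Type) [Field k] [NumberField k] (n : ℕ) (FF : Set (MvPolynomial (Fin (n + 1)) k)),
      ¬ NoRatBar FF → ∃ (r : ℕ) (K : Type) (_ : Field K) (_ : NumberField K) (_ : Algebra k K)
        (ρ : Multiplicative ℤ →* Matrix.GeneralLinearGroup (Fin r) K)
        (M : Matrix (Fin (n + 1)) (Fin r) K) (v : Fin r → K),
        (∀ h, ∀ F ∈ FF, aeval (orb M ρ v h) F = 0) ∧ (orbitPts M ρ v).Infinite) := by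
  refine ⟨?_, ?_, ?_, ?_⟩
  · intro k _ _ n FF hhom h K _ _ D hD r H _ ρ M v hX
    exact uni_bar FF hhom h hD ρ M v hX
  · intro K _ _ D hD
    exact specDeg_of_numberField K D hD
  · intro K _ _ D hD
    exact specDeg_ratFunc K D hD
  · intro k _ _ n FF h
    exact converse_bar FF h

end Pool.Agent.Results.MP_10e784_ag.UniformLinearOrbits
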